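import Mathlib
import Pool.Agent.H75.PS.Lower

/-!
Targets for MP_04ff0f_nt: primes `p` with `p ^ 2 - 2` prime, upper bound sieve of dimension two.
-/

set_option autoImplicit false

open Finset

namespace Pool.Agent.H46.SQ

/-- The number of residues `r` modulo `d` with `d ∣ r (r ^ 2 - 2)`. -/
def rho (d : ℕ) : ℕ :=
  ((Finset.range d).filter (fun r : ℕ => (d : ℤ) ∣ (r : ℤ) * ((r : ℤ) ^ 2 - 2))).card

/-- The completely multiplicative function with value `c p` at the primes. -/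
noncomputable def hh (c : ℕ → ℝ) (n : ℕ) : ℝ := n.factorization.prod (fun p k => (c p) ^ k)

/-- `∑_{d ∣ n} χ₈(d)`. -/
noncomputable def RR (n : ℕ) : ℝ := ∑ d ∈ n.divisors, (ZMod.χ₈ (d : ZMod 8) : ℝ)

/-- Chinese remainder theorem. -/
def T_MUL : Prop := ∀ a b : ℕ, 0 < a → 0 < b → a.Coprime b → rho (a * b) = rho a * rho b

/-- Counting in an interval. -/
def T_CNT : Prop := ∀ a N d : ℕ, 0 < d →
  |((((Finset.Ico a (a + N)).filter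
    (fun n : ℕ => (d : ℤ) ∣ (n : ℤ) * ((n : ℤ) ^ 2 - 2))).card : ℝ)) - (rho d : ℝ) / d * N| ≤ d

/-- Values at primes. -/
def T_RHO : Prop := rho 2 = 1 ∧
  (∀ p : ℕ, p.Prime → p ≠ 2 → (rho p : ℤ) = 2 + ZMod.χ₈ (p : ZMod 8)) ∧
  (∀ p : ℕ, p.Prime → 1 ≤ rho p ∧ rho p < p)

/-- Sums over all integers against sums over squarefree ones. -/
def T_SM : Prop := ∀ (c g : ℕ → ℝ) (R : ℕ), (∀ p, 0 ≤ c p) →
  (∀ p ∈ Nat.primesLE R, ∀ K : ℕ, ∑ k ∈ Finset.Icc 1 K, (c p / p) ^ k ≤ g p) →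
  ∑ n ∈ Finset.Icc 1 R, hh c n / n ≤ Pool.Agent.H75.PS.FF g (Nat.primesLE R) R

/-- The character sum. -/
def T_CHAR : Prop := ∀ z : ℕ,
  (7 / 15 : ℝ) * ∑ a ∈ Finset.Icc 1 z, 1 / (a : ℝ) ≤ ∑ n ∈ Finset.Icc 1 z, RR n / n

/-- Comparison of `ζ * ζ * χ₈` with the completely multiplicative function. -/
def T_COMP : Prop := ∀ x : ℕ,
  ∑ n ∈ Finset.Icc 1 x, (∑ d ∈ n.divisors, RR d) / n ≤
    4 * ∑ n ∈ Finset.Icc 1 x, hh (fun p => (rho p : ℝ)) n / n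

/-- Lower bound for the smooth sum. -/
def T_LOW : Prop := ∀ z : ℕ,
  (7 / 60 : ℝ) * (Real.log (z + 1)) ^ 2 ≤
    ∑ n ∈ Finset.Icc 1 (z * z), hh (fun p => (rho p : ℝ)) n / n

/-- The sieve bound. -/
def T_SIEVE : Prop := ∀ a N z : ℕ, 1 ≤ z → z * z < a →
  ((((Finset.Ico a (a + N)).filter (fun n => n.Prime ∧ (n ^ 2 - 2).Prime)).card : ℝ)) ≤
    9 * N / (Real.log (z + 1)) ^ 2 + (z : ℝ) ^ 12

/-- Primes `p ≤ x` with `p ^ 2 - 2` prime. -/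
def T_COUNT : Prop := ∃ C : ℝ, 0 < C ∧ ∀ x : ℕ, 2 ≤ x →
  ((((Finset.Icc 1 x).filter (fun n => n.Prime ∧ (n ^ 2 - 2).Prime)).card : ℝ)) ≤
    C * x / (Real.log x) ^ 2

/-- The `k`-th prime, `k = 1, 2, ...`. -/
noncomputable def pp (k : ℕ) : ℕ := Nat.nth Nat.Prime (k - 1)

/-- Upper bound for the `N`-th prime. -/
def T_NTH : Prop := ∃ C : ℝ, 0 < C ∧ ∀ N : ℕ, 2 ≤ N → (pp N : ℝ) ≤ C * N * Real.log N

/-- The indices `k ≤ N` with `p_k ^ 2 - 2` prime. -/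
def T_IDX : Prop := ∃ C : ℝ, 0 < C ∧ ∀ N : ℕ, 2 ≤ N →
  ((((Finset.Icc 1 N).filter (fun k => ((pp k) ^ 2 - 2).Prime)).card : ℝ)) ≤
    C * N / Real.log N

/-- First theorem: in almost all representations both summands are large. -/
def T_ONE : Prop := ∀ ε : ℝ, 0 < ε → ∃ c : ℝ, 0 < c ∧ ∃ N₀ : ℕ, ∀ N : ℕ, N₀ ≤ N →
  (({n : ℕ | n ≤ N ∧ ∃ k m : ℕ, 0 < k ∧ 0 < m ∧ k + m = n ∧
    ((pp k) ^ 2 - 2).Prime ∧ ((pp m) ^ 2 - 2).Prime ∧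
    ((min k m : ℕ) : ℝ) ≤ c * Real.log N * Real.log (Real.log N)}.ncard : ℝ)) ≤ ε * N

/-- Second theorem: the number of represented integers. -/
def T_TWO : Prop := ∃ C : ℝ, 0 < C ∧ ∀ N : ℕ, 2 ≤ N →
  (({n : ℕ | n ≤ N ∧ ∃ k m : ℕ, 0 < k ∧ 0 < m ∧ k + m = n ∧
    ((pp k) ^ 2 - 2).Prime ∧ ((pp m) ^ 2 - 2).Prime ∧ ((pp (pp m)) ^ 2 - 2).Prime}.ncard : ℝ)) ≤
    C * (N / Real.log N) *
      ({m : ℕ | 0 < m ∧ m ≤ N ∧ ((pp m) ^ 2 - 2).Prime ∧ ((pp (pp m)) ^ 2 - 2).Prime}.ncard : ℝ)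

end Pool.Agent.H46.SQ
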