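import Mathlib
import Pool.Agent.H45.SQ.Targets2
import Pool.Agent.H46.N99.Final

/-!
# N9H: the 99 percent theorem on a subspace
-/

namespace Pool.Agent.H46.SQ

set_option linter.unusedSectionVars false

open Finset Pool.Agent.H45.SQ
open scoped BigOperators ComplexConjugate

section

variable {G : Type} [AddCommGroup G] [Fintype G] [DecidableEq G] [Module (ZMod 2) G]

theorem mem_hs (H : Submodule (ZMod 2) G) (x : G) : x ∈ hs H ↔ x ∈ H := by
  unfold hs
  simp

theorem sum_hs (H : Submodule (ZMod 2) G) [Fintype H] (F : G → ℂ) :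
    ∑ x ∈ hs H, F x = ∑ x : H, F x :=
  Finset.sum_subtype (hs H) (fun x => mem_hs H x) F

theorem card_hs (H : Submodule (ZMod 2) G) [Fintype H] :
    (hs H).card = Fintype.card H := by
  rw [Fintype.card_of_subtype (hs H) (fun x => mem_hs H x)]

theorem sum_pi2 (s : Finset G) (F : (Fin 2 → G) → ℂ) :
    ∑ a ∈ Fintype.piFinset (fun _ : Fin 2 => s), F a = ∑ x ∈ s, ∑ y ∈ s, F ![x, y] := by
  rw [← Finset.sum_product']
  refine Finset.sum_nbij' (fun a => (a 0, a 1)) (fun p => ![p.1, p.2]) ?_ ?_ ?_ ?_ ?_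
  · intro a ha
    rw [Fintype.mem_piFinset] at ha
    simp [ha 0, ha 1]
  · intro p hp
    rw [Finset.mem_product] at hp
    rw [Fintype.mem_piFinset]
    intro i
    fin_cases i
    · exact hp.1
    · exact hp.2
  · intro a _
    funext i
    fin_cases i <;> rfl
  · intro p _
    rfl
  · intro a _
    congr 1
    funext i
    fin_cases i <;> rfl

theorem card_pi2 (s : Finset G) :
    (Fintype.piFinset (fun _ : Fin 2 => s)).card = s.card ^ 2 := by
  rw [Fintype.card_piFinset]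
  simp

theorem prod_cube (φ : G → G → ℂ) (a b r : Fin 2 → G) :
    ∏ i : Fin 2, ∏ j : Fin 2, ∏ k : Fin 2,
        cj (i.val + j.val + k.val) (φ (a i + b j) (b j + r k))
      = Pool.Agent.H46.N99.cubeR φ (a 0) (a 1) (b 0) (b 1) (r 0) (r 1) := by
  unfold Pool.Agent.H46.N99.cubeR
  have h2 : ¬ Even 1 := by decide
  have h3 : Even 2 := by decide
  have h4 : ¬ Even 3 := by decide
  have h0 : Even 0 := by decide
  simp [Fin.prod_univ_two, cj, h4]
  ring

theorem octH_eq (H : Submodule (ZMod 2) G) [Fintype H] (φ : G → G → ℂ) :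
    OctH H φ * (Fintype.card H : ℂ) ^ 6
      = ∑ a0 : H, ∑ a1 : H, ∑ b0 : H, ∑ b1 : H, ∑ r0 : H, ∑ r1 : H,
        Pool.Agent.H46.N99.cubeR (fun y z : H => φ y z) a0 a1 b0 b1 r0 r1 := by
  have hpos : (0 : ℝ) < Fintype.card H := by exact_mod_cast Fintype.card_pos
  have hne : (Fintype.card H : ℂ) ≠ 0 := by exact_mod_cast hpos.ne'
  unfold OctH
  simp only [prod_cube]
  simp only [Finset.expect_eq_sum_div_card, sum_pi2, card_pi2, card_hs, sum_hs]
  push_cast
  simp only [← Finset.sum_div]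
  rw [div_div, div_div]
  have h : (Fintype.card H : ℂ) ^ 2 * ((Fintype.card H : ℂ) ^ 2 * (Fintype.card H : ℂ) ^ 2)
      = (Fintype.card H : ℂ) ^ 6 := by ring
  rw [h, div_mul_cancel₀ _ (pow_ne_zero 6 hne)]
  rfl

end

theorem n9h : T_N9H := by
  refine ⟨1 / 10 ^ 9, by norm_num, ?_⟩
  intro G _ _ _ _ H φ hφ hO
  classical
  have : Fintype H := Fintype.ofFinite H
  have hpos : (0 : ℝ) < Fintype.card H := by exact_mod_cast Fintype.card_pos
  have hne : (Fintype.card H : ℂ) ≠ 0 := by exact_mod_cast hpos.ne'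
  have hO2 := octH_eq H φ
  have hO3 : (1 - 1 / 10 ^ 9) * (Fintype.card H : ℝ) ^ 6
      ≤ (∑ a0 : H, ∑ a1 : H, ∑ b0 : H, ∑ b1 : H, ∑ r0 : H, ∑ r1 : H,
        Pool.Agent.H46.N99.cubeR (fun y z : H => φ y z) a0 a1 b0 b1 r0 r1).re := by
    rw [← hO2]
    have h1 : (OctH H φ * (Fintype.card H : ℂ) ^ 6).re
        = (OctH H φ).re * (Fintype.card H : ℝ) ^ 6 := by
      have h2 : ((Fintype.card H : ℂ) ^ 6) = (((Fintype.card H : ℝ) ^ 6 : ℝ) : ℂ) := by push_cast; rfl
      rw [h2, Complex.re_mul_ofReal]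
    rw [h1]
    exact mul_le_mul_of_nonneg_right hO (by positivity)
  obtain ⟨u, v, w, m, hu, hv, hw, hm⟩ := Pool.Agent.H46.N99.t99_final H (fun y z : H => φ y z)
    (fun y z => hφ y z) hO3
  obtain ⟨p, hp⟩ := H.exists_isCompl
  let P : G →ₗ[ZMod 2] H := H.projectionOnto p hp
  have hP : ∀ x : H, P x = x := fun x => Submodule.projectionOnto_apply_left hp x
  refine ⟨fun x => u (P x), fun x => v (P x), fun x => w (P x), (m.compl₁₂ P P),
    fun x => hu _, fun x => hv _, fun x => hw _, ?_⟩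
  simp only [Finset.expect_eq_sum_div_card, sum_hs, card_hs]
  simp only [← Finset.sum_div]
  rw [div_div, norm_div]
  have hc : ‖(Fintype.card H : ℂ) * (Fintype.card H : ℂ)‖ = (Fintype.card H : ℝ) ^ 2 := by
    rw [norm_mul, Complex.norm_natCast]; ring
  rw [hc, le_div_iff₀ (by positivity)]
  refine hm.trans (le_of_eq ?_)
  congr 1
  refine Finset.sum_congr rfl fun y _ => Finset.sum_congr rfl fun z _ => ?_
  have h5 : P ((y : G) + (z : G)) = y + z := by
    rw [map_add, hP, hP]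
  have h6 : (m.compl₁₂ P P) (y : G) (z : G) = m y z := by
    rw [LinearMap.compl₁₂_apply, hP, hP]
  have h7 : ∀ k : ZMod 2, sg k = (-1 : ℂ) ^ k.val := by
    intro k
    fin_cases k
    · show sg 0 = (-1 : ℂ) ^ (0 : ZMod 2).val
      unfold sg; simp
    · show sg 1 = (-1 : ℂ) ^ (1 : ZMod 2).val
      unfold sg
      rw [if_neg (by decide)]
      simp [ZMod.val_one]
  rw [h5, h6, hP, hP, h7]

end Pool.Agent.H46.SQ
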