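import Mathlib
import Pool.Agent.H46.SQ.Targets

/-!
In almost all representations both summands are large.
-/

set_option autoImplicit false

open Finset

namespace Pool.Agent.H46.SQ

/-- the indices up to `N` with `p_k ^ 2 - 2` prime -/
noncomputable def AA (N : ℕ) : Finset ℕ :=
  (Finset.Icc 1 N).filter (fun k => ((pp k) ^ 2 - 2).Prime)

theorem one_of_idx (hIDX : T_IDX) : T_ONE := by
  classical
  obtain ⟨C, hC, hA⟩ := hIDX
  intro ε hε
  have hc : 0 < ε / (2 * C ^ 2) := by positivity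
  set c : ℝ := ε / (2 * C ^ 2) with hcdef
  refine ⟨c, hc, ⌈Real.exp (max 4 (Real.exp (2 / c)))⌉₊, ?_⟩
  intro N hN
  have hexp : Real.exp (max 4 (Real.exp (2 / c))) ≤ (N : ℝ) :=
    (Nat.le_ceil _).trans (by exact_mod_cast hN)
  have hNpos : (0 : ℝ) < N := lt_of_lt_of_le (Real.exp_pos _) hexp
  have hL : max 4 (Real.exp (2 / c)) ≤ Real.log N := by
    rw [Real.le_log_iff_exp_le hNpos]
    exact hexp
  set L := Real.log (N : ℝ) with hLdef
  have hL4 : 4 ≤ L := (le_max_left _ _).trans hL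
  have hL0 : 0 < L := by linarith
  have hl : 2 / c ≤ Real.log L := by
    rw [Real.le_log_iff_exp_le hL0]
    exact (le_max_right _ _).trans hL
  set l := Real.log L with hldef
  have hl0 : 0 < l := lt_of_lt_of_le (by positivity) hl
  have hcl : 2 ≤ c * l := by
    have := mul_le_mul_of_nonneg_left hl hc.le
    rwa [mul_div_cancel₀ _ hc.ne'] at this
  have hN2 : 2 ≤ N := by
    have h1 : (2 : ℝ) ≤ N := by
      have h2 : (1 : ℝ) + 4 ≤ Real.exp 4 := by
        have := Real.add_one_le_exp (4 : ℝ)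
        linarith
      have h3 : Real.exp 4 ≤ (N : ℝ) := (Real.exp_le_exp.mpr (le_max_left _ _)).trans hexp
      linarith
    exact_mod_cast h1
  -- the cut
  set K : ℕ := ⌊c * L * l⌋₊ with hKdef
  have hcLl : 2 * L ≤ c * L * l := by
    have := mul_le_mul_of_nonneg_right hcl hL0.le
    linarith [this]
  have hK1 : (K : ℝ) ≤ c * L * l := Nat.floor_le (by positivity)
  have hK2 : c * L * l - 1 < K := Nat.sub_one_lt_floor _
  have hsq : Real.sqrt L ≤ L := by
    rw [Real.sqrt_le_left hL0.le]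
    nlinarith
  have hK3 : Real.sqrt L ≤ K := by linarith
  have hsq2 : 2 ≤ Real.sqrt L := by
    rw [Real.le_sqrt' (by norm_num)]
    norm_num
    linarith
  have hKR : (2 : ℝ) ≤ K := hsq2.trans hK3
  have hKn : 2 ≤ K := by exact_mod_cast hKR
  have hlogK : l / 2 ≤ Real.log K := by
    have h1 : Real.log (Real.sqrt L) = l / 2 := by
      rw [Real.log_sqrt hL0.le]
    rw [← h1]
    exact Real.log_le_log (by linarith) hK3
  -- the set
  have hsub : {n : ℕ | n ≤ N ∧ ∃ k m : ℕ, 0 < k ∧ 0 < m ∧ k + m = n ∧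
      ((pp k) ^ 2 - 2).Prime ∧ ((pp m) ^ 2 - 2).Prime ∧
      ((min k m : ℕ) : ℝ) ≤ c * L * l} ⊆
      (((AA K) ×ˢ (AA N)).image (fun b => b.1 + b.2) : Finset ℕ) := by
    rintro n ⟨hn, k, m, hk, hm, hkm, hpk, hpm, hmin⟩
    have hminK : min k m ≤ K := Nat.le_floor hmin
    rw [Finset.mem_coe, Finset.mem_image]
    rcases le_total k m with h | h
    · rw [min_eq_left h] at hminK
      refine ⟨(k, m), ?_, hkm⟩
      rw [Finset.mem_product]
      simp only [AA, Finset.mem_filter, Finset.mem_Icc]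
      exact ⟨⟨⟨hk, hminK⟩, hpk⟩, ⟨⟨hm, by omega⟩, hpm⟩⟩
    · rw [min_eq_right h] at hminK
      refine ⟨(m, k), ?_, by simp only; omega⟩
      rw [Finset.mem_product]
      simp only [AA, Finset.mem_filter, Finset.mem_Icc]
      exact ⟨⟨⟨hm, hminK⟩, hpm⟩, ⟨⟨hk, by omega⟩, hpk⟩⟩
  have hcard : (({n : ℕ | n ≤ N ∧ ∃ k m : ℕ, 0 < k ∧ 0 < m ∧ k + m = n ∧
      ((pp k) ^ 2 - 2).Prime ∧ ((pp m) ^ 2 - 2).Prime ∧
      ((min k m : ℕ) : ℝ) ≤ c * L * l}.ncard : ℝ)) ≤ ((AA K).card : ℝ) * ((AA N).card : ℝ) := by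
    have h1 := Set.ncard_le_ncard hsub (Finset.finite_toSet _)
    rw [Set.ncard_coe_finset] at h1
    have h2 : (((AA K) ×ˢ (AA N)).image (fun b => b.1 + b.2)).card ≤
        (AA K).card * (AA N).card := by
      refine Finset.card_image_le.trans ?_
      rw [Finset.card_product]
    have h3 := h1.trans h2
    exact_mod_cast h3
  have hA1 : ((AA K).card : ℝ) ≤ 2 * C * c * L := by
    have h1 := hA K hKn
    have h2 : C * K / Real.log K ≤ C * (c * L * l) / (l / 2) := by
      apply div_le_div₀ (by positivity) (mul_le_mul_of_nonneg_left hK1 hC.le) (by positivity) hlogK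
    have h3 : C * (c * L * l) / (l / 2) = 2 * C * c * L := by
      field_simp
    rw [h3] at h2
    exact h1.trans h2
  have hA2 : ((AA N).card : ℝ) ≤ C * N / L := hA N hN2
  refine hcard.trans ?_
  calc ((AA K).card : ℝ) * ((AA N).card : ℝ) ≤ (2 * C * c * L) * (C * N / L) :=
        mul_le_mul hA1 hA2 (Nat.cast_nonneg _) (by positivity)
    _ = (2 * C ^ 2 * c) * N := by
        field_simp
    _ = ε * N := by
        rw [hcdef, mul_div_cancel₀ _ (by positivity)]

end Pool.Agent.H46.SQ
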