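import Mathlib
import Pool.Agent.H46.SQ.Targets

/-!
Smooth sums.
-/

set_option autoImplicit false

open Finset

namespace Pool.Agent.H46.SQ

lemma hh_mul (c : ℕ → ℝ) {a b : ℕ} (ha : a ≠ 0) (hb : b ≠ 0) : hh c (a * b) = hh c a * hh c b := by
  unfold hh
  rw [Nat.factorization_mul ha hb]
  apply Finsupp.prod_add_index'
  · intro p; simp
  · intro p m n; exact pow_add _ _ _

lemma hh_prime_pow (c : ℕ → ℝ) {p : ℕ} (hp : p.Prime) (k : ℕ) : hh c (p ^ k) = c p ^ k := by
  unfold hh
  rw [hp.factorization_pow]
  apply Finsupp.prod_single_index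
  simp

lemma hh_one (c : ℕ → ℝ) : hh c 1 = 1 := by
  unfold hh
  simp

lemma hh_nonneg (c : ℕ → ℝ) (hc : ∀ p, 0 ≤ c p) (n : ℕ) : 0 ≤ hh c n := by
  unfold hh Finsupp.prod
  apply Finset.prod_nonneg
  intro p _
  exact pow_nonneg (hc p) _

/-- the sum over the integers composed of primes of `P` -/
noncomputable def SS (c : ℕ → ℝ) (P : Finset ℕ) (x : ℕ) : ℝ :=
  ∑ n ∈ (Finset.Icc 1 x).filter (fun n : ℕ => n.primeFactors ⊆ P), hh c n / n

theorem SS_le (c g : ℕ → ℝ) (hc : ∀ p, 0 ≤ c p) (P : Finset ℕ) :
    (∀ p ∈ P, p.Prime ∧ ∀ K : ℕ, ∑ k ∈ Finset.Icc 1 K, (c p / p) ^ k ≤ g p) →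
    ∀ x : ℕ, SS c P x ≤ Pool.Agent.H75.PS.FF g P x := by
  classical
  induction P using Finset.induction_on with
  | empty =>
    intro _ x
    unfold SS Pool.Agent.H75.PS.FF
    rcases Nat.eq_zero_or_pos x with hx | hx
    · subst hx
      simp only [Finset.Icc_eq_empty_of_lt Nat.zero_lt_one, Finset.filter_empty, Finset.sum_empty]
      apply Finset.sum_nonneg
      intro A hA
      rw [Finset.mem_filter, Finset.mem_powerset, Finset.subset_empty] at hA
      rw [hA.1]
      simp
    · have e1 : (Finset.Icc 1 x).filter (fun n : ℕ => n.primeFactors ⊆ ∅) = {1} := by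
        ext n
        simp only [Finset.mem_filter, Finset.mem_Icc, Finset.subset_empty,
          Nat.primeFactors_eq_empty, Finset.mem_singleton]
        constructor
        · rintro ⟨⟨h1, h2⟩, h3 | h3⟩
          · omega
          · exact h3
        · rintro rfl
          exact ⟨⟨le_refl 1, hx⟩, Or.inr rfl⟩
      rw [e1, Finset.sum_singleton, hh_one]
      simp only [Finset.powerset_empty, Nat.cast_one, div_one]
      rw [Finset.sum_filter]
      simp only [Finset.sum_singleton, Finset.prod_empty]
      rw [if_pos (show 1 ≤ x from hx)]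
  | insert p P hpP ih =>
    intro h x
    have hp := (h p (Finset.mem_insert_self p P)).1
    have hgK := (h p (Finset.mem_insert_self p P)).2
    have hgp : 0 ≤ g p := by
      have := hgK 0
      simpa using this
    have hP : ∀ q ∈ P, q.Prime ∧ ∀ K : ℕ, ∑ k ∈ Finset.Icc 1 K, (c q / q) ^ k ≤ g q :=
      fun q hq => h q (Finset.mem_insert_of_mem hq)
    have hgP : ∀ q ∈ P, 0 ≤ g q := by
      intro q hq
      have := (hP q hq).2 0
      simpa using this
    have ih' := ih hP
    rw [Pool.Agent.H75.PS.FF_insert g P x p hpP hp.pos]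
    -- the map `n ↦ (v, m)`
    let φ : ℕ → (Σ _ : ℕ, ℕ) := fun n => ⟨n.factorization p, n / p ^ n.factorization p⟩
    let G : (Σ _ : ℕ, ℕ) → ℝ := fun b => (c p / p) ^ b.1 * (hh c b.2 / b.2)
    let B : Finset (Σ _ : ℕ, ℕ) := (Finset.range (x + 1)).sigma
      (fun k => (Finset.Icc 1 (x / p ^ k)).filter (fun n : ℕ => n.primeFactors ⊆ P))
    have hG0 : ∀ b, 0 ≤ G b := by
      intro b
      apply mul_nonneg
      · exact pow_nonneg (div_nonneg (hc p) (Nat.cast_nonneg _)) _
      · exact div_nonneg (hh_nonneg c hc _) (Nat.cast_nonneg _)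
    have hinj : Set.InjOn φ (((Finset.Icc 1 x).filter
        (fun n : ℕ => n.primeFactors ⊆ insert p P) : Finset ℕ) : Set ℕ) := by
      intro a _ b _ hab
      have h1 : a.factorization p = b.factorization p := congrArg Sigma.fst hab
      have h2 : a / p ^ a.factorization p = b / p ^ b.factorization p := by
        have := congrArg Sigma.snd hab
        exact this
      have ea : p ^ a.factorization p * (a / p ^ a.factorization p) = a :=
        Nat.ordProj_mul_ordCompl_eq_self a p
      have eb : p ^ b.factorization p * (b / p ^ b.factorization p) = b :=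
        Nat.ordProj_mul_ordCompl_eq_self b p
      rw [← ea, ← eb, h1, ← h2, h1]
    have hmem : ∀ n ∈ (Finset.Icc 1 x).filter (fun n : ℕ => n.primeFactors ⊆ insert p P),
        φ n ∈ B := by
      intro n hn
      rw [Finset.mem_filter, Finset.mem_Icc] at hn
      obtain ⟨⟨hn1, hn2⟩, hn3⟩ := hn
      have hn0 : n ≠ 0 := by omega
      simp only [B, φ, Finset.mem_sigma, Finset.mem_range, Finset.mem_filter, Finset.mem_Icc]
      refine ⟨?_, ⟨?_, ?_⟩, ?_⟩
      · have : n.factorization p < n := Nat.factorization_lt p hn0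
        omega
      · exact Nat.ordCompl_pos p hn0
      · exact Nat.div_le_div_right hn2
      · intro q hq
        have hq' := Nat.mem_primeFactors.mp hq
        have hqn : q ∣ n := hq'.2.1.trans (Nat.ordCompl_dvd n p)
        have hqin : q ∈ insert p P := hn3 (Nat.mem_primeFactors.mpr ⟨hq'.1, hqn, hn0⟩)
        rcases Finset.mem_insert.mp hqin with rfl | hqP
        · exact absurd hq'.2.1 (Nat.not_dvd_ordCompl hp hn0)
        · exact hqP
    have hval : ∀ n ∈ (Finset.Icc 1 x).filter (fun n : ℕ => n.primeFactors ⊆ insert p P),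
        hh c n / n = G (φ n) := by
      intro n hn
      rw [Finset.mem_filter, Finset.mem_Icc] at hn
      have hn0 : n ≠ 0 := by omega
      have hm0 : n / p ^ n.factorization p ≠ 0 := (Nat.ordCompl_pos p hn0).ne'
      have hpk : p ^ n.factorization p ≠ 0 := pow_ne_zero _ hp.ne_zero
      have e : p ^ n.factorization p * (n / p ^ n.factorization p) = n :=
        Nat.ordProj_mul_ordCompl_eq_self n p
      have e1 : hh c n = c p ^ n.factorization p * hh c (n / p ^ n.factorization p) := by
        conv_lhs => rw [← e]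
        rw [hh_mul c hpk hm0, hh_prime_pow c hp]
      have e2 : (n : ℝ) = (p : ℝ) ^ n.factorization p * ((n / p ^ n.factorization p : ℕ) : ℝ) := by
        conv_lhs => rw [← e]
        push_cast
        ring
      simp only [G, φ]
      rw [e1]
      conv_lhs => rw [e2]
      rw [div_pow, mul_div_mul_comm]
    have step1 : SS c (insert p P) x ≤ ∑ b ∈ B, G b := by
      unfold SS
      rw [Finset.sum_congr rfl hval, ← Finset.sum_image (f := G) hinj]
      apply Finset.sum_le_sum_of_subset_of_nonneg
      · intro b hb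
        obtain ⟨n, hn, rfl⟩ := Finset.mem_image.mp hb
        exact hmem n hn
      · intro b _ _
        exact hG0 b
    have step2 : ∑ b ∈ B, G b = ∑ k ∈ Finset.range (x + 1), (c p / p) ^ k * SS c P (x / p ^ k) := by
      simp only [B]
      rw [Finset.sum_sigma]
      apply Finset.sum_congr rfl
      intro k _
      unfold SS
      rw [Finset.mul_sum]
    have step3 : ∑ k ∈ Finset.range (x + 1), (c p / p) ^ k * SS c P (x / p ^ k) =
        ∑ k ∈ Finset.Icc 1 x, (c p / p) ^ k * SS c P (x / p ^ k) + SS c P x := by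
      rw [Finset.sum_range_succ']
      simp only [pow_zero, Nat.div_one, one_mul]
      congr 1
      have : Finset.Icc 1 x = (Finset.range x).map ⟨fun k => k + 1, fun a b h => by simpa using h⟩ := by
        ext k
        simp only [Finset.mem_Icc, Finset.mem_map, Finset.mem_range, Function.Embedding.coeFn_mk]
        constructor
        · rintro ⟨h1, h2⟩
          exact ⟨k - 1, by omega, by omega⟩
        · rintro ⟨a, ha, rfl⟩
          omega
      rw [this, Finset.sum_map]
      rfl
    have step4 : ∑ k ∈ Finset.Icc 1 x, (c p / p) ^ k * SS c P (x / p ^ k) ≤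
        g p * Pool.Agent.H75.PS.FF g P (x / p) := by
      have hF0 := Pool.Agent.H75.PS.FF_nonneg g P hgP (x / p)
      calc ∑ k ∈ Finset.Icc 1 x, (c p / p) ^ k * SS c P (x / p ^ k)
          ≤ ∑ k ∈ Finset.Icc 1 x, (c p / p) ^ k * Pool.Agent.H75.PS.FF g P (x / p) := by
            apply Finset.sum_le_sum
            intro k hk
            rw [Finset.mem_Icc] at hk
            apply mul_le_mul_of_nonneg_left _
              (pow_nonneg (div_nonneg (hc p) (Nat.cast_nonneg _)) _)
            refine (ih' (x / p ^ k)).trans (Pool.Agent.H75.PS.FF_mono g P hgP ?_)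
            apply Nat.div_le_div_left _ hp.pos
            calc p = p ^ 1 := (pow_one p).symm
              _ ≤ p ^ k := Nat.pow_le_pow_right hp.pos hk.1
        _ = (∑ k ∈ Finset.Icc 1 x, (c p / p) ^ k) * Pool.Agent.H75.PS.FF g P (x / p) := by
            rw [Finset.sum_mul]
        _ ≤ g p * Pool.Agent.H75.PS.FF g P (x / p) := mul_le_mul_of_nonneg_right (hgK x) hF0
    linarith [ih' x]

theorem sm : T_SM := by
  intro c g R hc hg
  have h := SS_le c g hc (Nat.primesLE R)
    (fun p hp => ⟨(Nat.mem_primesLE.mp hp).2, fun K => hg p hp K⟩) R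
  refine le_trans (le_of_eq ?_) h
  unfold SS
  rw [Finset.filter_true_of_mem]
  intro n hn q hq
  rw [Finset.mem_Icc] at hn
  have hq' := Nat.mem_primeFactors.mp hq
  exact Nat.mem_primesLE.mpr ⟨(Nat.le_of_dvd (by omega) hq'.2.1).trans hn.2, hq'.1⟩

end Pool.Agent.H46.SQ
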