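import Mathlib
import Pool.Agent.H46.SQ.Targets
import Pool.Agent.H69.SR.CHAR
import Pool.Agent.H69.SR.RHO
import Pool.Agent.H18.SR.CNT
import Pool.Agent.H51.SR.COMP
import Pool.Agent.H87.SR.COUNT
import Pool.Agent.H48.SR.IDX
import Pool.Agent.H54.SR.SIEVE
import Pool.Agent.H86.SR.LOW
import Pool.Agent.H19.SR.TWO
import Pool.Agent.H2.SR.MUL
import Pool.Agent.H46.SQ.SM
import Pool.Agent.H46.SQ.One

/-!
Assembly for MP_04ff0f_nt.
-/

set_option autoImplicit false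

namespace Pool.Agent.H46.SQ

theorem low : T_LOW :=
  Pool.Agent.H86.SR.sr_LOW Pool.Agent.H69.SR.pf_CHAR
    (Pool.Agent.H51.SR.sr_COMP Pool.Agent.H69.SR.pf_RHO)

theorem sieve : T_SIEVE :=
  Pool.Agent.H54.SR.sr_SIEVE Pool.Agent.H2.SR.sr_MUL Pool.Agent.H18.SR.sr_CNT
    Pool.Agent.H69.SR.pf_RHO sm low

theorem idx : T_IDX :=
  Pool.Agent.H48.SR.sr_IDX (Pool.Agent.H87.SR.sr_COUNT sieve) Pool.Agent.H87.SR.sr_NTH

theorem one : T_ONE := one_of_idx idx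

theorem two : T_TWO := Pool.Agent.H19.SR.sr_TWO idx

end Pool.Agent.H46.SQ
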